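import Pool.Agent.H933.RN.Stm2
import Pool.Agent.H21.LL.Nor5

/-!
# Normal operators and singular value decompositions satisfy the Banach space conditions (`P_apx`)
-/

set_option autoImplicit false

open MeasureTheory Metric Filter Topology
open scoped Real InnerProductSpace

namespace Pool.Agent.H253.RN

open Pool.Agent.H933.LL Pool.Agent.H933.RN Pool.Agent.H548.LL Pool.Agent.H21.LL

/-- part 1: the resolvent of a normal operator -/
lemma growth {H : Type} [NormedAddCommGroup H] [InnerProductSpace ℂ H] [CompleteSpace H]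
    (N : H →L[ℂ] H) (hN : IsStarNormal N) (hne : (spectrum ℂ N).Nonempty) :
    GrowthOff N (spectrum ℂ N) 1 := by
  refine ⟨1, fun z hz => ⟨?_, ?_⟩⟩
  · by_contra h
    exact hz h
  · have hd : 0 < infDist z (spectrum ℂ N) :=
      ((spectrum.isClosed N).notMem_iff_infDist_pos hne).1 hz
    have h1 : ‖resolvent N z‖ ≤ 1 / infDist z (spectrum ℂ N) := by
      refine res_le hN hd fun w hw => ?_
      have h2 := infDist_le_dist_of_mem (x := z) hw
      rwa [dist_eq_norm] at h2
    rw [Real.rpow_neg_one, one_mul]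
    rw [one_div] at h1
    linarith

/-- part 2: truncation of the singular value decomposition -/
lemma approx {H : Type} [NormedAddCommGroup H] [InnerProductSpace ℂ H] [CompleteSpace H]
    (K : H →L[ℂ] H) (η : ℝ) (hK : LogSchatten K η) : LogApprox K η := by
  classical
  obtain ⟨ι, e, f, s, he, hf, hs, ⟨C, hC⟩, hKx⟩ := hK
  have hsK := sv_le he hf hs hKx
  refine ⟨|C| + ‖K‖ + 1, fun δ hδ hδ1 => ?_⟩
  have hC0 := abs_nonneg C
  have hK0 := norm_nonneg K
  obtain ⟨hfin, hcard⟩ := hC δ hδ hδ1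
  rw [Set.ncard_eq_toFinset_card _ hfin] at hcard
  obtain ⟨I, hI⟩ : ∃ I : Finset ι, I = hfin.toFinset := ⟨_, rfl⟩
  rw [← hI] at hcard
  have hmem : ∀ i, i ∈ I ↔ δ < s i := by
    intro i
    rw [hI, Set.Finite.mem_toFinset]
    rfl
  obtain ⟨g⟩ : Nonempty (Fin I.card ≃ I) := ⟨I.equivFin.symm⟩
  refine ⟨I.card, fun k => (s (g k) : ℂ) • innerSL ℂ (e (g k)), fun k => f (g k), ?_, ?_, ?_⟩
  · refine hcard.trans (Real.exp_le_exp.2 ?_)
    refine mul_le_mul_of_nonneg_right ?_ (Real.rpow_nonneg hδ.le _)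
    have := le_abs_self C
    linarith
  · intro k
    constructor
    · rw [norm_smul, innerSL_apply_norm, he.norm_eq_one, mul_one, Complex.norm_real,
        Real.norm_eq_abs, abs_of_nonneg (hs _)]
      have := hsK (g k)
      linarith
    · rw [hf.norm_eq_one]
      linarith
  · have h0 : ∑ k, ((s (g k) : ℂ) • innerSL ℂ (e (g k))).smulRight (f (g k)) =
        ∑ i ∈ I, ((s i : ℂ) • innerSL ℂ (e i)).smulRight (f i) := by
      rw [← Finset.sum_coe_sort I (fun i => ((s i : ℂ) • innerSL ℂ (e i)).smulRight (f i))]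
      exact Fintype.sum_equiv g _ _ fun k => rfl
    rw [h0]
    refine trunc_le he hf hs hKx I hδ.le fun i hi => ?_
    rw [hmem, not_lt] at hi
    exact hi

/-- **P_apx** -/
theorem p_apx : P_apx :=
  ⟨fun _ _ _ _ N hN hne => growth N hN hne, fun _ _ _ _ K η _ hK => approx K η hK⟩

end Pool.Agent.H253.RN
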